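import Pool.Agent.Y862.GM.Stm

/-!
# Project GM: characteristic functions from moments
-/

set_option autoImplicit false
set_option linter.all false

namespace Pool.Agent.Y845.GM

open Finset Pool.Agent.Y862.GM

lemma taylor_pos (K : ℕ) : ∀ u : ℝ, 0 ≤ u →
    ‖Complex.exp (u * Complex.I) - ∑ k ∈ range K, (u * Complex.I) ^ k / k.factorial‖ ≤
      u ^ K / K.factorial := by
  induction K with
  | zero =>
    intro u _
    simp [Complex.norm_exp_ofReal_mul_I]
  | succ K ih =>
    intro u hu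
    have hd : ∀ x : ℝ, HasDerivAt (fun u : ℝ => Complex.exp (u * Complex.I) -
        ∑ k ∈ range (K + 1), (u * Complex.I) ^ k / k.factorial)
        (Complex.I * (Complex.exp (x * Complex.I) -
          ∑ k ∈ range K, (x * Complex.I) ^ k / k.factorial)) x := by
      intro x
      have h0 : HasDerivAt (fun u : ℝ => (u : ℂ) * Complex.I) Complex.I x := by
        have := (Complex.ofRealCLM.hasDerivAt (x := x)).mul_const Complex.I
        simpa using this
      have h1 : HasDerivAt (fun u : ℝ => Complex.exp (u * Complex.I))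
          (Complex.exp (x * Complex.I) * Complex.I) x := h0.cexp
      have h2 : HasDerivAt (fun u : ℝ => ∑ k ∈ range K, (u * Complex.I) ^ (k + 1) /
          (k + 1).factorial) (∑ k ∈ range K, (x * Complex.I) ^ k / k.factorial * Complex.I) x := by
        refine HasDerivAt.fun_sum fun k _ => ?_
        have h3 := (h0.fun_pow (k + 1)).div_const ((k + 1).factorial : ℂ)
        refine h3.congr_deriv ?_
        rw [Nat.factorial_succ]
        have hk : ((k.factorial : ℕ) : ℂ) ≠ 0 := Nat.cast_ne_zero.2 k.factorial_ne_zero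
        have hk1 : ((k + 1 : ℕ) : ℂ) ≠ 0 := Nat.cast_ne_zero.2 k.succ_ne_zero
        push_cast at hk1 ⊢
        field_simp
      have h4 : (fun u : ℝ => Complex.exp (u * Complex.I) -
          ∑ k ∈ range (K + 1), (u * Complex.I) ^ k / k.factorial) =
          fun u : ℝ => Complex.exp (u * Complex.I) -
            (∑ k ∈ range K, (u * Complex.I) ^ (k + 1) / (k + 1).factorial + 1) := by
        funext u
        rw [sum_range_succ']
        simp
      rw [h4]
      refine (h1.sub (h2.add_const 1)).congr_deriv ?_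
      rw [mul_sub, mul_sum]
      congr 1
      · ring
      · refine sum_congr rfl fun k _ => ?_
        ring
    have hB : ∀ x : ℝ, HasDerivAt (fun u : ℝ => u ^ (K + 1) / (K + 1).factorial)
        (x ^ K / K.factorial) x := by
      intro x
      have h3 := ((hasDerivAt_id x).fun_pow (K + 1)).div_const ((K + 1).factorial : ℝ)
      refine h3.congr_deriv ?_
      rw [Nat.factorial_succ]
      have hk : ((K.factorial : ℕ) : ℝ) ≠ 0 := Nat.cast_ne_zero.2 K.factorial_ne_zero
      have hk1 : ((K + 1 : ℕ) : ℝ) ≠ 0 := Nat.cast_ne_zero.2 K.succ_ne_zero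
      push_cast at hk1 ⊢
      simp only [id]
      field_simp
    refine image_norm_le_of_norm_deriv_right_le_deriv_boundary (a := 0) (b := u)
      (f := fun u : ℝ => Complex.exp (u * Complex.I) -
        ∑ k ∈ range (K + 1), (u * Complex.I) ^ k / k.factorial)
      (fun x _ => (hd x).continuousAt.continuousWithinAt)
      (fun x _ => (hd x).hasDerivWithinAt) ?_ hB ?_ ⟨hu, le_rfl⟩
    · rw [sum_range_succ']
      simp
    · intro x hx
      rw [norm_mul, Complex.norm_I, one_mul]
      exact ih x hx.1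

lemma taylor (K : ℕ) (u : ℝ) :
    ‖Complex.exp (u * Complex.I) - ∑ k ∈ range K, (u * Complex.I) ^ k / k.factorial‖ ≤
      |u| ^ K / K.factorial := by
  rcases le_or_gt 0 u with h | h
  · rw [abs_of_nonneg h]
    exact taylor_pos K u h
  · have h1 := taylor_pos K (-u) (by linarith)
    rw [abs_of_neg h]
    refine le_trans (le_of_eq ?_) h1
    rw [← Complex.norm_conj (Complex.exp (((-u : ℝ) : ℂ) * Complex.I) -
      ∑ k ∈ range K, (((-u : ℝ) : ℂ) * Complex.I) ^ k / k.factorial)]
    congr 1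
    rw [map_sub, ← Complex.exp_conj, map_sum]
    have h2 : (starRingEnd ℂ) (((-u : ℝ) : ℂ) * Complex.I) = (u : ℂ) * Complex.I := by
      rw [map_mul, Complex.conj_ofReal, Complex.conj_I]
      push_cast
      ring
    rw [h2]
    congr 1
    refine sum_congr rfl fun k _ => ?_
    rw [map_div₀, map_pow, h2, map_natCast]

/-- sums over sign patterns of products -/
lemma sum_powerset_prod {A : Type*} [CommRing A] (s : Finset ℕ) (a b : ℕ → A) :
    ∑ U ∈ s.powerset, ∏ h ∈ s, (if h ∈ U then a h else b h) = ∏ h ∈ s, (a h + b h) := by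
  rw [Finset.prod_add]
  refine sum_congr rfl fun U hU => ?_
  have hU' := mem_powerset.1 hU
  rw [Finset.prod_ite]
  congr 1
  · congr 1
    ext h
    simp only [mem_filter]
    exact ⟨fun h1 => h1.2, fun h1 => ⟨hU' h1, h1⟩⟩
  · congr 1
    ext h
    simp only [mem_filter, mem_sdiff]

/-- the exponential sum over sign patterns -/
lemma sum_cexp (s : Finset ℕ) (c : ℕ → ℝ) :
    ∑ U ∈ s.powerset, Complex.exp (((∑ h ∈ s, sg U h * c h : ℝ) : ℂ) * Complex.I) =
      2 ^ s.card * ((∏ h ∈ s, Real.cos (c h) : ℝ) : ℂ) := by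
  have h1 : ∀ U ∈ s.powerset, Complex.exp (((∑ h ∈ s, sg U h * c h : ℝ) : ℂ) * Complex.I) =
      ∏ h ∈ s, (if h ∈ U then Complex.exp (c h * Complex.I) else
        Complex.exp (-(c h * Complex.I))) := by
    intro U _
    push_cast
    rw [sum_mul, Complex.exp_sum]
    refine prod_congr rfl fun h _ => ?_
    unfold sg
    split_ifs
    · simp
    · simp
  rw [sum_congr rfl h1, sum_powerset_prod]
  push_cast
  rw [← prod_const, ← prod_mul_distrib]
  refine prod_congr rfl fun h _ => ?_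
  rw [Complex.cos]
  ring_nf

lemma sum_exp (s : Finset ℕ) (c : ℕ → ℝ) :
    ∑ U ∈ s.powerset, Real.exp (∑ h ∈ s, sg U h * c h) =
      2 ^ s.card * ∏ h ∈ s, Real.cosh (c h) := by
  have h1 : ∀ U ∈ s.powerset, Real.exp (∑ h ∈ s, sg U h * c h) =
      ∏ h ∈ s, (if h ∈ U then Real.exp (c h) else Real.exp (-(c h))) := by
    intro U _
    rw [Real.exp_sum]
    refine prod_congr rfl fun h _ => ?_
    unfold sg
    split_ifs
    · simp
    · simp
  rw [sum_congr rfl h1, sum_powerset_prod]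
  rw [← prod_const, ← prod_mul_distrib]
  refine prod_congr rfl fun h _ => ?_
  rw [Real.cosh_eq]
  ring

lemma sum_cosh (s : Finset ℕ) (c : ℕ → ℝ) :
    ∑ U ∈ s.powerset, Real.cosh (∑ h ∈ s, sg U h * c h) =
      2 ^ s.card * ∏ h ∈ s, Real.cosh (c h) := by
  have h1 := sum_exp s c
  have h2 := sum_exp s (fun h => - c h)
  simp only [Real.cosh_neg] at h2
  have h3 : ∀ U ∈ s.powerset, Real.cosh (∑ h ∈ s, sg U h * c h) =
      (Real.exp (∑ h ∈ s, sg U h * c h) + Real.exp (∑ h ∈ s, sg U h * - c h)) / 2 := by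
    intro U _
    rw [Real.cosh_eq, ← sum_neg_distrib]
    simp only [mul_neg]
  rw [sum_congr rfl h3, ← sum_div, sum_add_distrib, h1, h2]
  ring

/-- a term of the power series of cosh -/
lemma pow_le_cosh (K : ℕ) (hK : Even K) (r : ℝ) : r ^ K / K.factorial ≤ Real.cosh r := by
  obtain ⟨m, rfl⟩ := hK
  have h1 := Real.hasSum_cosh r
  have h2 := le_hasSum h1 m (fun j _ => by
    have : 0 ≤ r ^ (2 * j) := by
      rw [pow_mul]; positivity
    positivity)
  rw [two_mul] at h2
  exact h2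

lemma moment (s : Finset ℕ) (c : ℕ → ℝ) (B : ℝ) (hc : ∑ h ∈ s, c h ^ 2 ≤ B) (K : ℕ)
    (hK : Even K) :
    (∑ U ∈ s.powerset, (∑ h ∈ s, sg U h * c h) ^ K) / 2 ^ s.card ≤
      K.factorial * (Real.exp (2 * B) / 2 ^ K) := by
  have h1 := sum_cosh s (fun h => 2 * c h)
  have h2 : ∏ h ∈ s, Real.cosh (2 * c h) ≤ Real.exp (2 * B) := by
    calc ∏ h ∈ s, Real.cosh (2 * c h) ≤ ∏ h ∈ s, Real.exp (2 * c h ^ 2) := by
          refine prod_le_prod (fun h _ => (Real.cosh_pos _).le) fun h _ => ?_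
          refine (Real.cosh_le_exp_half_sq _).trans (le_of_eq ?_)
          congr 1
          ring
      _ = Real.exp (2 * ∑ h ∈ s, c h ^ 2) := by
          rw [← Real.exp_sum, mul_sum]
      _ ≤ Real.exp (2 * B) := Real.exp_le_exp.2 (by linarith)
  have h3 : ∀ U ∈ s.powerset, (∑ h ∈ s, sg U h * c h) ^ K ≤
      K.factorial / 2 ^ K * Real.cosh (∑ h ∈ s, sg U h * (2 * c h)) := by
    intro U _
    have h4 := pow_le_cosh K hK (∑ h ∈ s, sg U h * (2 * c h))
    have h5 : ∑ h ∈ s, sg U h * (2 * c h) = 2 * ∑ h ∈ s, sg U h * c h := by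
      rw [mul_sum]
      exact sum_congr rfl fun h _ => by ring
    rw [h5] at h4 ⊢
    have hf : (0 : ℝ) < K.factorial := by positivity
    have h2K : (0 : ℝ) < 2 ^ K := by positivity
    rw [div_le_iff₀ hf, mul_pow] at h4
    rw [div_mul_eq_mul_div, le_div_iff₀ h2K]
    linarith
  have h2s : (0 : ℝ) < 2 ^ s.card := by positivity
  rw [div_le_iff₀ h2s]
  calc ∑ U ∈ s.powerset, (∑ h ∈ s, sg U h * c h) ^ K
      ≤ ∑ U ∈ s.powerset, K.factorial / 2 ^ K * Real.cosh (∑ h ∈ s, sg U h * (2 * c h)) :=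
        sum_le_sum h3
    _ = K.factorial / 2 ^ K * (2 ^ s.card * ∏ h ∈ s, Real.cosh (2 * c h)) := by
        rw [← mul_sum, h1]
    _ ≤ K.factorial / 2 ^ K * (2 ^ s.card * Real.exp (2 * B)) := by
        gcongr
    _ = K.factorial * (Real.exp (2 * B) / 2 ^ K) * 2 ^ s.card := by ring

theorem t_CF : S_CF := by
  intro Om L K f v B δ hK hδ hf hB hM
  set s := Ioc 0 L with hs
  have hcard : s.card = L := by simp [hs]
  -- rewriting of the random signs
  have hR : ∀ x U, ∑ h ∈ s, v h * sg U h * f x h ^ 2 =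
      ∑ h ∈ s, sg U h * (v h * f x h ^ 2) := fun x U => sum_congr rfl fun h _ => by ring
  simp only [hR] at hM
  have hf1 : ∀ x h, (f x h ^ 2) ^ 2 ≤ 1 := by
    intro x h
    have h1 := hf x h
    have h2 : f x h * (f x h - 1) * (f x h + 1) = 0 := by linear_combination h1
    rcases mul_eq_zero.1 h2 with h3 | h3
    · rcases mul_eq_zero.1 h3 with h4 | h4
      · rw [h4]; norm_num
      · rw [sub_eq_zero.1 h4]; norm_num
    · rw [eq_neg_of_add_eq_zero_left h3]; norm_num
  have hc : ∀ x, ∑ h ∈ s, (v h * f x h ^ 2) ^ 2 ≤ B := by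
    intro x
    refine le_trans (sum_le_sum fun h _ => ?_) hB
    rw [mul_pow]
    nlinarith [hf1 x h, sq_nonneg (v h)]
  set S : ℕ → ℝ := fun x => ∑ h ∈ s, v h * f x h with hSdef
  set R : ℕ → Finset ℕ → ℝ := fun x U => ∑ h ∈ s, sg U h * (v h * f x h ^ 2) with hRdef
  set T : ℝ → ℂ := fun u => ∑ k ∈ range K, ((u : ℂ) * Complex.I) ^ k / k.factorial with hT
  have hKf : (0 : ℝ) < K.factorial := by positivity
  have hKf1 : (1 : ℝ) ≤ K.factorial := by exact_mod_cast Nat.succ_le_of_lt K.factorial_pos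
  have hmom : ∀ x, (∑ U ∈ s.powerset, R x U ^ K) / 2 ^ L ≤
      K.factorial * (Real.exp (2 * B) / 2 ^ K) := by
    intro x
    have := moment s (fun h => v h * f x h ^ 2) B (hc x) K hK
    rw [hcard] at this
    exact this
  -- the three parts
  have hA : ‖∑ x ∈ Om, (Complex.exp (S x * Complex.I) - T (S x))‖ ≤
      (∑ x ∈ Om, S x ^ K) / K.factorial := by
    refine (norm_sum_le _ _).trans ?_
    rw [sum_div]
    refine sum_le_sum fun x _ => ?_
    have := taylor K (S x)
    rwa [hK.pow_abs] at this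
  have hB3 : ‖∑ x ∈ Om, (∑ U ∈ s.powerset, (Complex.exp (R x U * Complex.I) - T (R x U))) /
      2 ^ L‖ ≤ (∑ x ∈ Om, (∑ U ∈ s.powerset, R x U ^ K) / 2 ^ L) / K.factorial := by
    refine (norm_sum_le _ _).trans ?_
    rw [sum_div]
    refine sum_le_sum fun x _ => ?_
    rw [norm_div, norm_pow]
    have h2 : ‖(2 : ℂ)‖ = 2 := by simp
    rw [h2, div_right_comm]
    gcongr
    refine (norm_sum_le _ _).trans ?_
    rw [sum_div]
    refine sum_le_sum fun U _ => ?_
    have := taylor K (R x U)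
    rwa [hK.pow_abs] at this
  have hC3 : ‖∑ x ∈ Om, (T (S x) - (∑ U ∈ s.powerset, T (R x U)) / 2 ^ L)‖ ≤
      Real.exp 1 * (δ * Om.card) := by
    have h1 : ∑ x ∈ Om, (T (S x) - (∑ U ∈ s.powerset, T (R x U)) / 2 ^ L) =
        ∑ k ∈ range K, (Complex.I ^ k / k.factorial) *
          ((∑ x ∈ Om, S x ^ k - ∑ x ∈ Om, (∑ U ∈ s.powerset, R x U ^ k) / 2 ^ L : ℝ) : ℂ) := by
      have h2 : ∀ x ∈ Om, T (S x) - (∑ U ∈ s.powerset, T (R x U)) / 2 ^ L =
          ∑ k ∈ range K, (Complex.I ^ k / k.factorial) *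
            ((S x ^ k - (∑ U ∈ s.powerset, R x U ^ k) / 2 ^ L : ℝ) : ℂ) := by
        intro x _
        simp only [hT]
        rw [sum_comm, sum_div, ← sum_sub_distrib]
        refine sum_congr rfl fun k _ => ?_
        push_cast
        rw [mul_sub]
        congr 1
        · ring
        · rw [sum_div, sum_div, mul_sum]
          refine sum_congr rfl fun U _ => ?_
          ring
      rw [sum_congr rfl h2, sum_comm]
      refine sum_congr rfl fun k _ => ?_
      rw [← mul_sum, ← Complex.ofReal_sum, sum_sub_distrib]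
    rw [h1]
    refine (norm_sum_le _ _).trans ?_
    have h3 : ∀ k ∈ range K, ‖(Complex.I ^ k / k.factorial) *
          ((∑ x ∈ Om, S x ^ k - ∑ x ∈ Om, (∑ U ∈ s.powerset, R x U ^ k) / 2 ^ L : ℝ) : ℂ)‖ ≤
          (1 : ℝ) ^ k / k.factorial * (δ * Om.card) := by
      intro k hk
      rw [norm_mul, norm_div, norm_pow, Complex.norm_I, Complex.norm_real, Real.norm_eq_abs,
        Complex.norm_natCast]
      gcongr
      exact hM k (mem_range.1 hk).le
    refine (sum_le_sum h3).trans ?_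
    rw [← sum_mul]
    gcongr
    exact Real.sum_le_exp_of_nonneg (by norm_num) K
  -- the cosines
  have hcos : ∀ x, ((∏ h ∈ s, Real.cos (v h * f x h ^ 2) : ℝ) : ℂ) =
      (∑ U ∈ s.powerset, Complex.exp (R x U * Complex.I)) / 2 ^ L := by
    intro x
    have := sum_cexp s (fun h => v h * f x h ^ 2)
    rw [hcard] at this
    rw [this]
    field_simp
  have hsplit : ∑ x ∈ Om, Complex.exp (Complex.I * ((∑ h ∈ s, v h * f x h : ℝ) : ℂ)) -
      ((∑ x ∈ Om, ∏ h ∈ s, Real.cos (v h * f x h ^ 2) : ℝ) : ℂ) =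
      ∑ x ∈ Om, (Complex.exp (S x * Complex.I) - T (S x)) +
      ∑ x ∈ Om, (T (S x) - (∑ U ∈ s.powerset, T (R x U)) / 2 ^ L) -
      ∑ x ∈ Om, (∑ U ∈ s.powerset, (Complex.exp (R x U * Complex.I) - T (R x U))) / 2 ^ L := by
    rw [Complex.ofReal_sum, ← sum_sub_distrib, ← sum_add_distrib, ← sum_sub_distrib]
    refine sum_congr rfl fun x _ => ?_
    rw [hcos x, sum_sub_distrib, mul_comm Complex.I]
    ring
  rw [hsplit]
  refine (norm_sub_le _ _).trans ?_
  refine (add_le_add_left (norm_add_le _ _) _).trans ?_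
  have hSK : ∑ x ∈ Om, S x ^ K ≤
      ∑ x ∈ Om, (∑ U ∈ s.powerset, R x U ^ K) / 2 ^ L + δ * Om.card := by
    have := (abs_le.1 (hM K le_rfl)).2
    linarith
  have hRK : ∑ x ∈ Om, (∑ U ∈ s.powerset, R x U ^ K) / 2 ^ L ≤
      K.factorial * (Om.card * (Real.exp (2 * B) / 2 ^ K)) := by
    refine (sum_le_sum fun x _ => hmom x).trans (le_of_eq ?_)
    rw [sum_const, nsmul_eq_mul]
    ring
  have hRK' : (∑ x ∈ Om, (∑ U ∈ s.powerset, R x U ^ K) / 2 ^ L) / K.factorial ≤
      Om.card * (Real.exp (2 * B) / 2 ^ K) := by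
    rw [div_le_iff₀ hKf]
    linarith
  have hδO : 0 ≤ δ * Om.card := by positivity
  have hSK' : (∑ x ∈ Om, S x ^ K) / K.factorial ≤
      Om.card * (Real.exp (2 * B) / 2 ^ K) + δ * Om.card := by
    have h1 : (∑ x ∈ Om, S x ^ K) / K.factorial ≤
        (∑ x ∈ Om, (∑ U ∈ s.powerset, R x U ^ K) / 2 ^ L + δ * Om.card) / K.factorial := by
      gcongr
    rw [add_div] at h1
    have h2 : δ * Om.card / K.factorial ≤ δ * Om.card := div_le_self hδO hKf1
    linarith
  have he : Real.exp 1 ≤ 3 := by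
    have := Real.exp_one_lt_d9
    linarith
  have he' : Real.exp 1 * (δ * Om.card) ≤ 3 * (δ * Om.card) := by gcongr
  have hfin : (4 * δ + 2 * Real.exp (2 * B) / 2 ^ K) * Om.card =
      4 * (δ * Om.card) + 2 * (Om.card * (Real.exp (2 * B) / 2 ^ K)) := by ring
  rw [hfin]
  linarith

end Pool.Agent.Y845.GM
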